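import Pool.Agent.R860.CG.Avg

/-!
# The least singular value of a complex shift of a noisy real matrix
-/

set_option autoImplicit false

namespace Pool.Agent.Results.MP_ceabe6_pr.ComplexShift

open MeasureTheory ProbabilityTheory Set Matrix
open scoped ENNReal
open Pool.Agent.R979.SV Pool.Agent.R860.CG

universe u

/-- The joint law of an independent family of standard Gaussian entries. -/
theorem law_mu2 {Ω : Type u} [MeasurableSpace Ω] (P : Measure Ω) [IsProbabilityMeasure P]
    {n : ℕ} (H : Fin n → Fin n → Ω → ℝ) (hH : ∀ i j, HasLaw (H i j) (gaussianReal 0 1) P)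
    (hind : iIndepFun (fun p : Fin n × Fin n => H p.1 p.2) P) :
    P.map (fun ω i j => H i j ω) = mu2 (Fin n) := by
  have hae : ∀ p : Fin n × Fin n, AEMeasurable (fun ω => H p.1 p.2 ω) P :=
    fun p => (hH p.1 p.2).aemeasurable
  have h1 : P.map (fun ω (p : Fin n × Fin n) => H p.1 p.2 ω) =
      Measure.pi (fun _ : Fin n × Fin n => gam) := by
    have h2 := (iIndepFun_iff_map_fun_eq_pi_map (f := fun p : Fin n × Fin n => H p.1 p.2)
      hae).mp hind
    rw [h2]
    congr 1
    funext p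
    exact (hH p.1 p.2).map_eq
  have h3 : mu2 (Fin n) = (Measure.pi fun _ : Fin n × Fin n => gam).map
      (MeasurableEquiv.curry (Fin n) (Fin n) ℝ) := by
    have := Measure.infinitePi_map_curry (fun (_ : Fin n) (_ : Fin n) => gam)
    simp only [Measure.infinitePi_eq_pi] at this
    exact this.symm
  rw [h3, ← h1, AEMeasurable.map_map_of_aemeasurable
    (MeasurableEquiv.measurable _).aemeasurable (aemeasurable_pi_lambda _ hae)]
  rfl

/-- A small smallest singular value gives an almost kernel vector. -/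
theorem unit_of_sigma {n : ℕ} (hn : 1 ≤ n)
    (T : EuclideanSpace ℂ (Fin n) →ₗ[ℂ] EuclideanSpace ℂ (Fin n)) {ε : ℝ}
    (h : T.singularValues (n - 1) ≤ ε) :
    ∃ u : EuclideanSpace ℂ (Fin n), ‖u‖ = 1 ∧ ‖T u‖ ≤ ε := by
  have hlt : n - 1 < Module.finrank ℂ (EuclideanSpace ℂ (Fin n)) := by
    rw [finrank_euclideanSpace, Fintype.card_fin]
    omega
  have hev := T.hasEigenvalue_adjoint_comp_self_sq_singularValues hlt
  obtain ⟨v, hv⟩ := hev.exists_hasEigenvector
  have hv0 : v ≠ 0 := hv.2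
  have hv1 := hv.apply_eq_smul
  have hnv : 0 < ‖v‖ := norm_pos_iff.mpr hv0
  set σ := T.singularValues (n - 1) with hσ
  have hσ0 : 0 ≤ σ := T.singularValues_nonneg _
  have h1 : ‖T v‖ = σ * ‖v‖ := by
    have h2 : inner ℂ (T v) (T v) = inner ℂ ((LinearMap.adjoint T ∘ₗ T) v) v := by
      rw [LinearMap.comp_apply, LinearMap.adjoint_inner_left]
    rw [hv1, inner_smul_left, inner_self_eq_norm_sq_to_K, inner_self_eq_norm_sq_to_K] at h2
    have h3 : ‖T v‖ ^ 2 = σ ^ 2 * ‖v‖ ^ 2 := by
      have h4 := congrArg Complex.re h2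
      simp only [map_pow, Complex.conj_ofReal, Complex.coe_algebraMap] at h4
      norm_cast at h4
    have h5 : ‖T v‖ ^ 2 = (σ * ‖v‖) ^ 2 := by rw [h3]; ring
    exact (pow_left_inj₀ (norm_nonneg _) (by positivity) two_ne_zero).mp h5
  refine ⟨((‖v‖⁻¹ : ℝ) : ℂ) • v, ?_, ?_⟩
  · rw [norm_smul, Complex.norm_real, norm_inv, norm_norm, inv_mul_cancel₀ hnv.ne']
  · rw [map_smul, norm_smul, Complex.norm_real, norm_inv, norm_norm, h1]
    have h6 : ‖v‖⁻¹ * (σ * ‖v‖) = σ := by
      field_simp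
    rw [h6]
    exact h

/-- The smallest singular value of a complex `n × n` matrix (Mathlib's singular values are
indexed from zero and decrease). -/
noncomputable def sigmaMin {n : ℕ} (B : Matrix (Fin n) (Fin n) ℂ) : ℝ :=
  (Matrix.toEuclideanLin (𝕜 := ℂ) B).singularValues (n - 1)

/-- The operator norm of a real `n × n` matrix on Euclidean space. -/
noncomputable def opNorm {n : ℕ} (A : Matrix (Fin n) (Fin n) ℝ) : ℝ :=
  ‖Matrix.toEuclideanCLM (n := Fin n) (𝕜 := ℝ) A‖

/-- The complex matrix `z - M`, for a real matrix `M`. -/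
noncomputable def shifted {n : ℕ} (z : ℂ) (M : Matrix (Fin n) (Fin n) ℝ) :
    Matrix (Fin n) (Fin n) ℂ := z • 1 - M.map Complex.ofReal

/-- `G` is a real Ginibre matrix: its entries are independent Gaussians with mean `0` and
variance `1 / n`. -/
def IsGinibre {Ω : Type u} [MeasurableSpace Ω] (P : Measure Ω) {n : ℕ}
    (G : Ω → Matrix (Fin n) (Fin n) ℝ) : Prop :=
  (∀ i j, HasLaw (fun ω => G ω i j) (gaussianReal 0 (1 / n)) P) ∧
    iIndepFun (fun (p : Fin n × Fin n) ω => G ω p.1 p.2) P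

/-- The main estimate, before the definitions are folded. -/
theorem main {Ω : Type u} [MeasurableSpace Ω] (P : Measure Ω) [IsProbabilityMeasure P]
    (n : ℕ) (hn : 1 ≤ n) (G : Fin n → Fin n → Ω → ℝ)
    (hG : ∀ i j, HasLaw (G i j) (gaussianReal 0 (1 / n)) P)
    (hind : iIndepFun (fun p : Fin n × Fin n => G p.1 p.2) P)
    (A : Matrix (Fin n) (Fin n) ℝ) (z : ℂ) (hz : z.im ≠ 0) (ε : ℝ) (hε : 0 < ε) :
    P {ω | (Matrix.toEuclideanLin (𝕜 := ℂ) (z • (1 : Matrix (Fin n) (Fin n) ℂ) -
        (A + Matrix.of fun i j => G i j ω).map Complex.ofReal)).singularValues (n - 1) ≤ ε} ≤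
      ENNReal.ofReal (880 * (1 + ‖Matrix.toEuclideanCLM (n := Fin n) (𝕜 := ℝ) A‖) *
        (n : ℝ) ^ 2 * ε ^ 2 / |z.im|) := by
  have : Nonempty (Fin n) := ⟨⟨0, by omega⟩⟩
  have hnpos : (0 : ℝ) < n := by exact_mod_cast (by omega : 0 < n)
  set r : ℝ := √(n : ℝ) with hr
  have hr0 : 0 < r := Real.sqrt_pos.mpr hnpos
  have hr2 : r ^ 2 = n := Real.sq_sqrt hnpos.le
  -- the rescaled transposed matrix
  set H : Fin n → Fin n → Ω → ℝ := fun i j ω => r * G j i ω with hH
  have hHlaw : ∀ i j, HasLaw (H i j) (gaussianReal 0 1) P := by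
    intro i j
    have h1 := gaussianReal_const_mul (hG j i) r
    have h2 : (gaussianReal (r * 0) (.mk (r ^ 2) (sq_nonneg _) * (1 / n))) =
        gaussianReal 0 1 := by
      rw [mul_zero]
      congr 1
      apply NNReal.eq
      push_cast
      rw [hr2]
      field_simp
    rw [h2] at h1
    exact h1
  have hHind : iIndepFun (fun p : Fin n × Fin n => H p.1 p.2) P := by
    have h1 := iIndepFun.precomp (g := fun p : Fin n × Fin n => (p.2, p.1))
      (fun p q h => by
        simp only [Prod.mk.injEq] at h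
        exact Prod.ext h.2 h.1) hind
    have h2 := h1.comp (fun _ x => r * x) (fun _ => by fun_prop)
    exact h2
  have hmap := law_mu2 P H hHlaw hHind
  have hHae : AEMeasurable (fun ω i j => H i j ω) P := by
    apply aemeasurable_pi_lambda
    intro i
    apply aemeasurable_pi_lambda
    intro j
    exact (hHlaw i j).aemeasurable
  set A' : Fin n → Fin n → ℝ := fun i j => r * A j i with hA'
  set w : ℂ := (r : ℂ) * z with hw
  have hwim : w.im = r * z.im := by
    rw [hw, Complex.im_ofReal_mul]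
  have hw0 : w.im ≠ 0 := by
    rw [hwim]
    exact mul_ne_zero hr0.ne' hz
  set E : Set (Fin n → Fin n → ℝ) := {G | ∃ u : Fin n → ℂ, ∑ i, ‖u i‖ ^ 2 = 1 ∧
    ∑ i, ‖ct w (A' + G) u i‖ ^ 2 ≤ (r * ε) ^ 2} with hE
  have hEm : MeasurableSet E := by
    have h1 : E = EV A' w (r * ε) 0 0 := by
      ext G
      simp only [hE, EV, Set.mem_ofPred_eq, Pi.zero_apply, Complex.ofReal_zero, zero_mul,
        Finset.sum_const_zero, norm_zero, le_refl, and_true]
    rw [h1]
    exact (EV_closed _ _ _ _ _).measurableSet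
  have hmain := scale_one A' w hw0 (t := r * ε) (by positivity)
  have hsub : {ω | (Matrix.toEuclideanLin (𝕜 := ℂ) (z • (1 : Matrix (Fin n) (Fin n) ℂ) -
        (A + Matrix.of fun i j => G i j ω).map Complex.ofReal)).singularValues (n - 1) ≤ ε} ⊆
      (fun ω i j => H i j ω) ⁻¹' E := by
    intro ω hω
    obtain ⟨u, hu1, hu2⟩ := unit_of_sigma hn _ hω
    refine ⟨WithLp.ofLp u, ?_, ?_⟩
    · rw [← EuclideanSpace.norm_sq_eq, hu1, one_pow]
    · have h1 : ∀ i, ct w (A' + fun i j => H i j ω) (WithLp.ofLp u) i =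
          (r : ℂ) * (WithLp.ofLp (Matrix.toEuclideanLin (𝕜 := ℂ)
            (z • (1 : Matrix (Fin n) (Fin n) ℂ) -
            (A + Matrix.of fun i j => G i j ω).map Complex.ofReal) u)) i := by
        intro i
        have h2 : WithLp.ofLp (Matrix.toEuclideanLin (𝕜 := ℂ)
            (z • (1 : Matrix (Fin n) (Fin n) ℂ) -
            (A + Matrix.of fun i j => G i j ω).map Complex.ofReal) u) =
            (z • (1 : Matrix (Fin n) (Fin n) ℂ) -
            (A + Matrix.of fun i j => G i j ω).map Complex.ofReal) *ᵥ WithLp.ofLp u := rfl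
        rw [h2, Matrix.sub_mulVec, Matrix.smul_mulVec, Matrix.one_mulVec]
        simp only [ct, hA', hH, hw, Pi.sub_apply, Pi.smul_apply, smul_eq_mul,
          Matrix.mulVec, dotProduct, Matrix.map_apply, Matrix.add_apply, Matrix.of_apply,
          Pi.add_apply, mul_sub, Finset.mul_sum]
        congr 1
        · ring
        · apply Finset.sum_congr rfl
          intro j _
          push_cast
          ring
      simp only [h1, norm_mul, mul_pow, Complex.norm_real, Real.norm_of_nonneg hr0.le]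
      rw [← Finset.mul_sum, ← EuclideanSpace.norm_sq_eq]
      gcongr
  have hopn : opn A' ≤ r * ‖Matrix.toEuclideanCLM (n := Fin n) (𝕜 := ℝ) A‖ := by
    apply opn_le _ (by positivity)
    intro x y
    have h1 : x ⬝ᵥ (Matrix.of A' *ᵥ y) = r * (y ⬝ᵥ (Matrix.of (fun i j => A i j) *ᵥ x)) := by
      simp only [dotProduct, Matrix.mulVec, Matrix.of_apply, hA', Finset.mul_sum]
      rw [Finset.sum_comm]
      apply Finset.sum_congr rfl
      intro i _
      apply Finset.sum_congr rfl
      intro j _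
      ring
    have h2 := opn_bil (fun i j => A i j) y x
    rw [h1, abs_mul, abs_of_pos hr0]
    have h3 : opn (fun i j => A i j) = ‖Matrix.toEuclideanCLM (n := Fin n) (𝕜 := ℝ) A‖ := rfl
    rw [h3] at h2
    calc r * |y ⬝ᵥ (Matrix.of (fun i j => A i j) *ᵥ x)|
        ≤ r * (‖Matrix.toEuclideanCLM (n := Fin n) (𝕜 := ℝ) A‖ * √(y ⬝ᵥ y) * √(x ⬝ᵥ x)) := by
          gcongr
      _ = _ := by ring
  calc P {ω | (Matrix.toEuclideanLin (𝕜 := ℂ) (z • (1 : Matrix (Fin n) (Fin n) ℂ) -
        (A + Matrix.of fun i j => G i j ω).map Complex.ofReal)).singularValues (n - 1) ≤ ε}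
      ≤ P ((fun ω i j => H i j ω) ⁻¹' E) := measure_mono hsub
    _ = mu2 (Fin n) E := by rw [← hmap, Measure.map_apply_of_aemeasurable hHae hEm]
    _ ≤ _ := hmain
    _ ≤ _ := by
      apply ENNReal.ofReal_le_ofReal
      rw [Fintype.card_fin, ← hr, hwim, abs_mul, abs_of_pos hr0]
      have hzp : 0 < |z.im| := abs_pos.mpr hz
      set a := ‖Matrix.toEuclideanCLM (n := Fin n) (𝕜 := ℝ) A‖ with ha
      have ha0 : 0 ≤ a := norm_nonneg _
      calc 880 * (opn A' + r) * n * (r * ε) ^ 2 / (r * |z.im|)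
          ≤ 880 * (r * a + r) * n * (r * ε) ^ 2 / (r * |z.im|) := by gcongr
        _ = 880 * (1 + a) * n * r ^ 2 * ε ^ 2 / |z.im| := by
            field_simp
            ring
        _ = 880 * (1 + a) * (n : ℝ) ^ 2 * ε ^ 2 / |z.im| := by
            rw [hr2]; ring

/-- For a real Ginibre matrix `G` (independent entries of law `N(0, 1/n)`), every deterministic
real matrix `A`, every non-real `z` and every `ε > 0`, the smallest singular value of
`z - (A + G)` is at most `ε` with probability at most `880 (1 + ‖A‖) n² ε² / |Im z|`. -/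
theorem result {Ω : Type u} [MeasurableSpace Ω] (P : Measure Ω) [IsProbabilityMeasure P]
    (n : ℕ) (hn : 1 ≤ n) (G : Ω → Matrix (Fin n) (Fin n) ℝ) (hG : IsGinibre P G)
    (A : Matrix (Fin n) (Fin n) ℝ) (z : ℂ) (hz : z.im ≠ 0) (ε : ℝ) (hε : 0 < ε) :
    P {ω | sigmaMin (shifted z (A + G ω)) ≤ ε} ≤
      ENNReal.ofReal (880 * (1 + opNorm A) * n ^ 2 * ε ^ 2 / |z.im|) :=
  main P n hn (fun i j ω => G ω i j) hG.1 hG.2 A z hz ε hε

end Pool.Agent.Results.MP_ceabe6_pr.ComplexShift
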